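import Mathlib

/-!
# The numerators of the functions `𝔍_α` are not unimodal in type `B₂`

For `𝔤 = so₅` (type `B₂`) with long simple root `α₀` and short simple root `α₁` the polynomial
`N_α` for `α = 2 α₀ + 2 α₁` is `1 + q + 3q² + 2q³ + 5q⁴ + 2q⁵ + 3q⁶ + q⁷ + q⁸`.
-/

namespace Pool.Agent.Results.MP_4223bd_al.NotUnimodalB2

open Polynomial

noncomputable section

variable {ι : Type} [Fintype ι] [DecidableEq ι]

/-- `(β, β) / 2` for `β = ∑ β_i α_i`, where `A` is the Cartan matrix, `d i = (α_i, α_i) / 2`, and so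
`(α_i, α_j) = A i j * d j`. -/
def halfNorm (A : Matrix ι ι ℤ) (d : ι → ℕ) (β : ι → ℕ) : ℤ :=
  (∑ i, ∑ j, (β i : ℤ) * β j * (A i j * d j)) / 2

/-- `(q)_α = ∏_i ∏_{j = 1}^{a_i} (1 - q ^ (d_i j))` in `ℚ(q)`. -/
def qp (d : ι → ℕ) (α : ι → ℕ) : RatFunc ℚ :=
  ∏ i, ∏ j ∈ Finset.range (α i), (1 - RatFunc.X ^ (d i * (j + 1)))

/-- The family `J` satisfies `𝔍_0 = 1` and
`𝔍_α = ∑_{0 ≤ β ≤ α} q ^ ((β, β) / 2) / (q)_{α - β} 𝔍_β` for all `α`. -/
def IsJ (A : Matrix ι ι ℤ) (d : ι → ℕ) (J : (ι → ℕ) → RatFunc ℚ) : Prop :=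
  J 0 = 1 ∧ ∀ α, J α = ∑ β ∈ Finset.Iic α, RatFunc.X ^ halfNorm A d β / qp d (α - β) * J β

/-- A polynomial `∑_{k ≤ D} c_k q ^ k`, `c_D ≠ 0`, is unimodal if
`c_0 ≤ ... ≤ c_m ≥ ... ≥ c_D` for some `m`. -/
def IsUnimodal (P : ℚ[X]) : Prop :=
  ∃ m, (∀ i, i < m → P.coeff i ≤ P.coeff (i + 1)) ∧
    ∀ i, m ≤ i → i < P.natDegree → P.coeff (i + 1) ≤ P.coeff i

/-- the half squared lengths of the simple roots in type `B₂`, the second one being short -/
def dB2 : Fin 2 → ℕ := ![2, 1]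

lemma halfNorm_B2 (β : Fin 2 → ℕ) : halfNorm (CartanMatrix.B 2) dB2 β =
    (β 0 : ℤ) ^ 2 + ((β 0 : ℤ) - β 1) ^ 2 := by
  have h : (∑ i, ∑ j, (β i : ℤ) * β j * (CartanMatrix.B 2 i j * dB2 j)) =
      2 * ((β 0 : ℤ) ^ 2 + ((β 0 : ℤ) - β 1) ^ 2) := by
    simp only [Fin.sum_univ_two, CartanMatrix.B, dB2, Matrix.of_apply]
    simp
    ring
  rw [halfNorm, h]
  omega

lemma halfNorm_pos (β : Fin 2 → ℕ) (hβ : β ≠ 0) : 0 < halfNorm (CartanMatrix.B 2) dB2 β := by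
  rw [halfNorm_B2]
  by_contra h
  push Not at h
  have h0 : (β 0 : ℤ) = 0 := by nlinarith [sq_nonneg ((β 0 : ℤ) - β 1), sq_nonneg (β 0 : ℤ)]
  have h1 : (β 1 : ℤ) = 0 := by
    rw [h0] at h
    nlinarith [sq_nonneg (β 1 : ℤ)]
  apply hβ
  funext i
  fin_cases i
  · simpa using h0
  · simpa using h1

lemma one_sub_ne {n : ℕ} (hn : n ≠ 0) : (1 - RatFunc.X ^ n : RatFunc ℚ) ≠ 0 := by
  intro h
  have h1 : (RatFunc.X ^ n : RatFunc ℚ) = 1 := by
    rw [sub_eq_zero] at h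
    exact h.symm
  have h2 : algebraMap ℚ[X] (RatFunc ℚ) (X ^ n) = algebraMap ℚ[X] (RatFunc ℚ) 1 := by
    rw [map_pow, RatFunc.algebraMap_X, map_one, h1]
  have h3 := IsFractionRing.injective ℚ[X] (RatFunc ℚ) h2
  have h4 := congrArg Polynomial.natDegree h3
  rw [Polynomial.natDegree_X_pow, Polynomial.natDegree_one] at h4
  exact hn h4

lemma one_sub_zpow_ne {n : ℤ} (hn : 0 < n) : (1 - RatFunc.X ^ n : RatFunc ℚ) ≠ 0 := by
  obtain ⟨m, rfl⟩ := Int.eq_ofNat_of_zero_le hn.le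
  have : m ≠ 0 := by rintro rfl; simp at hn
  simpa using one_sub_ne this

/-- the recursion in solved form -/
lemma isJ_iff (J : (Fin 2 → ℕ) → RatFunc ℚ) : IsJ (CartanMatrix.B 2) dB2 J ↔
    J 0 = 1 ∧ ∀ α, α ≠ 0 → J α = (1 - RatFunc.X ^ halfNorm (CartanMatrix.B 2) dB2 α)⁻¹ *
      ∑ β ∈ Finset.Iio α, RatFunc.X ^ halfNorm (CartanMatrix.B 2) dB2 β / qp dB2 (α - β) * J β := by
  have key : ∀ α : Fin 2 → ℕ, ∑ β ∈ Finset.Iic α,
      RatFunc.X ^ halfNorm (CartanMatrix.B 2) dB2 β / qp dB2 (α - β) * J β =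
      (∑ β ∈ Finset.Iio α, RatFunc.X ^ halfNorm (CartanMatrix.B 2) dB2 β / qp dB2 (α - β) * J β)
        + RatFunc.X ^ halfNorm (CartanMatrix.B 2) dB2 α * J α := by
    intro α
    have h1 : Finset.Iic α = insert α (Finset.Iio α) := (Finset.Iio_insert α).symm
    rw [h1, Finset.sum_insert (by simp), add_comm]
    congr 2
    have h2 : qp dB2 (α - α) = 1 := by simp [qp]
    rw [h2, div_one]
  constructor
  · rintro ⟨h0, h⟩
    refine ⟨h0, fun α hα => ?_⟩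
    have h1 := h α
    rw [key] at h1
    rw [eq_inv_mul_iff_mul_eq₀ (one_sub_zpow_ne (halfNorm_pos α hα)), sub_mul, one_mul]
    linear_combination h1
  · rintro ⟨h0, h⟩
    refine ⟨h0, fun α => ?_⟩
    by_cases hα : α = 0
    · subst hα
      rw [key, halfNorm_B2, h0]
      have h1 : Finset.Iio (0 : Fin 2 → ℕ) = ∅ := by
        ext β
        simp
      rw [h1]
      simp
    · have h1 := h α hα
      rw [eq_inv_mul_iff_mul_eq₀ (one_sub_zpow_ne (halfNorm_pos α hα)), sub_mul, one_mul] at h1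
      rw [key]
      linear_combination h1

/-- the functions `𝔍_α` -/
def J : (Fin 2 → ℕ) → RatFunc ℚ :=
  (wellFounded_lt (α := Fin 2 → ℕ)).fix fun α rec =>
    if α = 0 then 1 else
      (1 - RatFunc.X ^ halfNorm (CartanMatrix.B 2) dB2 α)⁻¹ *
      ∑ β ∈ (Finset.Iio α).attach, RatFunc.X ^ halfNorm (CartanMatrix.B 2) dB2 β.1 /
        qp dB2 (α - β.1) * rec β.1 (Finset.mem_Iio.mp β.2)

lemma J_spec : IsJ (CartanMatrix.B 2) dB2 J := by
  rw [isJ_iff]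
  constructor
  · rw [J, WellFounded.fix_eq]
    simp
  · intro α hα
    rw [J, WellFounded.fix_eq, if_neg hα]
    congr 1
    exact Finset.sum_attach (Finset.Iio α) (fun β => RatFunc.X ^ halfNorm (CartanMatrix.B 2) dB2 β /
        qp dB2 (α - β) * J β)

lemma J_unique (J' : (Fin 2 → ℕ) → RatFunc ℚ) (h : IsJ (CartanMatrix.B 2) dB2 J') : J' = J := by
  rw [isJ_iff] at h
  have hJ := J_spec
  rw [isJ_iff] at hJ
  funext α
  induction α using (wellFounded_lt (α := Fin 2 → ℕ)).induction with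
  | _ α ih =>
    by_cases hα : α = 0
    · subst hα
      rw [h.1, hJ.1]
    · rw [h.2 α hα, hJ.2 α hα]
      congr 1
      refine Finset.sum_congr rfl fun β hβ => ?_
      rw [ih β (Finset.mem_Iio.mp hβ)]


lemma qp_mk (a b : ℕ) : qp dB2 ![a, b] = (∏ j ∈ Finset.range a, (1 - RatFunc.X ^ (2 * (j + 1)))) *
    ∏ j ∈ Finset.range b, (1 - RatFunc.X ^ (j + 1)) := by
  simp [qp, dB2, Fin.prod_univ_two]

lemma sub_mk (a b c d : ℕ) : (![a, b] - ![c, d] : Fin 2 → ℕ) = ![a - c, b - d] := by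
  funext i
  fin_cases i <;> rfl

lemma h_mk (a b : ℕ) : halfNorm (CartanMatrix.B 2) dB2 ![a, b] = (a : ℤ) ^ 2 + ((a : ℤ) - b) ^ 2 := by
  rw [halfNorm_B2]
  rfl

lemma n1 : (1 - RatFunc.X : RatFunc ℚ) ≠ 0 := by simpa using one_sub_ne (n := 1) (by norm_num)
lemma n2 : (1 - RatFunc.X ^ 2 : RatFunc ℚ) ≠ 0 := one_sub_ne (by norm_num)
lemma n4 : (1 - RatFunc.X ^ 4 : RatFunc ℚ) ≠ 0 := one_sub_ne (by norm_num)
lemma n5 : (1 - RatFunc.X ^ 5 : RatFunc ℚ) ≠ 0 := one_sub_ne (by norm_num)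
lemma n8 : (1 - RatFunc.X ^ 8 : RatFunc ℚ) ≠ 0 := one_sub_ne (by norm_num)

lemma J00 : J ![0, 0] = 1 := by
  have h := J_spec.1
  have h1 : (0 : Fin 2 → ℕ) = ![0, 0] := by
    funext i
    fin_cases i <;> rfl
  rwa [h1] at h

lemma J01 : J ![0, 1] = (1) / ((1 - RatFunc.X)) ^ 2 := by
  rw [((isJ_iff J).mp J_spec).2 ![0, 1] (by decide)]
  have hI : Finset.Iio (![0, 1] : Fin 2 → ℕ) = {![0, 0]} := by decide
  rw [hI]
  have h1 := n1
  have h2 := n2
  have h4 := n4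
  have h5 := n5
  have h8 := n8
  rw [Finset.sum_singleton]
  simp only [J00, sub_mk, qp_mk, h_mk, Finset.prod_range_succ, Finset.prod_range_zero]
  norm_num
  field_simp

lemma J10 : J ![1, 0] = (1) / ((1 - RatFunc.X ^ 2)) ^ 2 := by
  rw [((isJ_iff J).mp J_spec).2 ![1, 0] (by decide)]
  have hI : Finset.Iio (![1, 0] : Fin 2 → ℕ) = {![0, 0]} := by decide
  rw [hI]
  have h1 := n1
  have h2 := n2
  have h4 := n4
  have h5 := n5
  have h8 := n8
  rw [Finset.sum_singleton]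
  simp only [J00, sub_mk, qp_mk, h_mk, Finset.prod_range_succ, Finset.prod_range_zero]
  norm_num
  field_simp

lemma J02 : J ![0, 2] = (1) / ((1 - RatFunc.X) * (1 - RatFunc.X ^ 2)) ^ 2 := by
  rw [((isJ_iff J).mp J_spec).2 ![0, 2] (by decide)]
  have hI : Finset.Iio (![0, 2] : Fin 2 → ℕ) = {![0, 0], ![0, 1]} := by decide
  rw [hI]
  have h1 := n1
  have h2 := n2
  have h4 := n4
  have h5 := n5
  have h8 := n8
  rw [Finset.sum_insert (by decide)]
  rw [Finset.sum_singleton]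
  simp only [J00, J01, sub_mk, qp_mk, h_mk, Finset.prod_range_succ, Finset.prod_range_zero]
  norm_num
  field_simp
  ring

lemma J11 : J ![1, 1] = (1 + RatFunc.X + RatFunc.X ^ 2) / ((1 - RatFunc.X ^ 2) * (1 - RatFunc.X)) ^ 2 := by
  rw [((isJ_iff J).mp J_spec).2 ![1, 1] (by decide)]
  have hI : Finset.Iio (![1, 1] : Fin 2 → ℕ) = {![0, 0], ![0, 1], ![1, 0]} := by decide
  rw [hI]
  have h1 := n1
  have h2 := n2
  have h4 := n4
  have h5 := n5
  have h8 := n8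
  rw [Finset.sum_insert (by decide)]
  rw [Finset.sum_insert (by decide)]
  rw [Finset.sum_singleton]
  simp only [J00, J01, J10, sub_mk, qp_mk, h_mk, Finset.prod_range_succ, Finset.prod_range_zero]
  norm_num
  field_simp
  ring

lemma J20 : J ![2, 0] = (1) / ((1 - RatFunc.X ^ 2) * (1 - RatFunc.X ^ 4)) ^ 2 := by
  rw [((isJ_iff J).mp J_spec).2 ![2, 0] (by decide)]
  have hI : Finset.Iio (![2, 0] : Fin 2 → ℕ) = {![0, 0], ![1, 0]} := by decide
  rw [hI]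
  have h1 := n1
  have h2 := n2
  have h4 := n4
  have h5 := n5
  have h8 := n8
  rw [Finset.sum_insert (by decide)]
  rw [Finset.sum_singleton]
  simp only [J00, J10, sub_mk, qp_mk, h_mk, Finset.prod_range_succ, Finset.prod_range_zero]
  norm_num
  field_simp
  ring

lemma J12 : J ![1, 2] = (1 + RatFunc.X + 3 * RatFunc.X ^ 2 + RatFunc.X ^ 3 + RatFunc.X ^ 4) / ((1 - RatFunc.X ^ 2) * (1 - RatFunc.X) * (1 - RatFunc.X ^ 2)) ^ 2 := by
  rw [((isJ_iff J).mp J_spec).2 ![1, 2] (by decide)]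
  have hI : Finset.Iio (![1, 2] : Fin 2 → ℕ) = {![0, 0], ![0, 1], ![0, 2], ![1, 0], ![1, 1]} := by decide
  rw [hI]
  have h1 := n1
  have h2 := n2
  have h4 := n4
  have h5 := n5
  have h8 := n8
  rw [Finset.sum_insert (by decide)]
  rw [Finset.sum_insert (by decide)]
  rw [Finset.sum_insert (by decide)]
  rw [Finset.sum_insert (by decide)]
  rw [Finset.sum_singleton]
  simp only [J00, J01, J02, J10, J11, sub_mk, qp_mk, h_mk, Finset.prod_range_succ, Finset.prod_range_zero]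
  norm_num
  field_simp
  ring

lemma J21 : J ![2, 1] = (1 + RatFunc.X + RatFunc.X ^ 2 + RatFunc.X ^ 3 + RatFunc.X ^ 4) / ((1 - RatFunc.X ^ 2) * (1 - RatFunc.X ^ 4) * (1 - RatFunc.X)) ^ 2 := by
  rw [((isJ_iff J).mp J_spec).2 ![2, 1] (by decide)]
  have hI : Finset.Iio (![2, 1] : Fin 2 → ℕ) = {![0, 0], ![0, 1], ![1, 0], ![1, 1], ![2, 0]} := by decide
  rw [hI]
  have h1 := n1
  have h2 := n2
  have h4 := n4
  have h5 := n5
  have h8 := n8
  rw [Finset.sum_insert (by decide)]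
  rw [Finset.sum_insert (by decide)]
  rw [Finset.sum_insert (by decide)]
  rw [Finset.sum_insert (by decide)]
  rw [Finset.sum_singleton]
  simp only [J00, J01, J10, J11, J20, sub_mk, qp_mk, h_mk, Finset.prod_range_succ, Finset.prod_range_zero]
  norm_num
  field_simp
  ring

lemma J22 : J ![2, 2] = (1 + RatFunc.X + 3 * RatFunc.X ^ 2 + 2 * RatFunc.X ^ 3 + 5 * RatFunc.X ^ 4 + 2 * RatFunc.X ^ 5 + 3 * RatFunc.X ^ 6 + RatFunc.X ^ 7 + RatFunc.X ^ 8) / ((1 - RatFunc.X ^ 2) * (1 - RatFunc.X ^ 4) * (1 - RatFunc.X) * (1 - RatFunc.X ^ 2)) ^ 2 := by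
  rw [((isJ_iff J).mp J_spec).2 ![2, 2] (by decide)]
  have hI : Finset.Iio (![2, 2] : Fin 2 → ℕ) = {![0, 0], ![0, 1], ![0, 2], ![1, 0], ![1, 1], ![1, 2], ![2, 0], ![2, 1]} := by decide
  rw [hI]
  have h1 := n1
  have h2 := n2
  have h4 := n4
  have h5 := n5
  have h8 := n8
  rw [Finset.sum_insert (by decide)]
  rw [Finset.sum_insert (by decide)]
  rw [Finset.sum_insert (by decide)]
  rw [Finset.sum_insert (by decide)]
  rw [Finset.sum_insert (by decide)]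
  rw [Finset.sum_insert (by decide)]
  rw [Finset.sum_insert (by decide)]
  rw [Finset.sum_singleton]
  simp only [J00, J01, J02, J10, J11, J12, J20, J21, sub_mk, qp_mk, h_mk, Finset.prod_range_succ, Finset.prod_range_zero]
  norm_num
  field_simp
  ring

/-- the numerator for `α = 2 α₀ + 2 α₁` -/
def P22 : ℚ[X] := 1 + X + 3 * X ^ 2 + 2 * X ^ 3 + 5 * X ^ 4 + 2 * X ^ 5 + 3 * X ^ 6 + X ^ 7 + X ^ 8

lemma P22_map : algebraMap ℚ[X] (RatFunc ℚ) P22 = qp dB2 ![2, 2] ^ 2 * J ![2, 2] := by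
  have h1 := n1
  have h2 := n2
  have h4 := n4
  rw [J22, qp_mk]
  simp only [Finset.prod_range_succ, Finset.prod_range_zero, P22, map_add, map_mul, map_pow,
    RatFunc.algebraMap_X, map_one, map_ofNat]
  norm_num
  field_simp

lemma P22_not : ¬ IsUnimodal P22 := by
  have c2 : P22.coeff 2 = 3 := by
    simp [P22, coeff_X, coeff_one, coeff_X_pow]
  have c3 : P22.coeff 3 = 2 := by
    simp [P22, coeff_X, coeff_one, coeff_X_pow]
  have c4 : P22.coeff 4 = 5 := by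
    simp [P22, coeff_X, coeff_one, coeff_X_pow]
  have hd : P22.natDegree = 8 := by
    unfold P22
    compute_degree!
  rintro ⟨m, hm1, hm2⟩
  by_cases h : m ≤ 3
  · have h1 := hm2 3 h (by rw [hd]; norm_num)
    rw [c3, c4] at h1
    norm_num at h1
  · have h1 := hm1 2 (by omega)
    rw [c2, c3] at h1
    norm_num at h1

/-- **In type `B₂` (`𝔤 = so₅`), with long simple root `α₀` and short simple root `α₁`, the
functions `𝔍_α` exist and are unique, and for `α = 2 α₀ + 2 α₁` the numerator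
`N_α = (q)_α² 𝔍_α` is the polynomial `1 + q + 3q² + 2q³ + 5q⁴ + 2q⁵ + 3q⁶ + q⁷ + q⁸`, which is not
unimodal.** -/
theorem result : (∃! J : (Fin 2 → ℕ) → RatFunc ℚ, IsJ (CartanMatrix.B 2) ![2, 1] J) ∧
    ∀ J : (Fin 2 → ℕ) → RatFunc ℚ, IsJ (CartanMatrix.B 2) ![2, 1] J →
    ∃ P : ℚ[X], algebraMap ℚ[X] (RatFunc ℚ) P = qp ![2, 1] ![2, 2] ^ 2 * J ![2, 2] ∧
      P = 1 + X + 3 * X ^ 2 + 2 * X ^ 3 + 5 * X ^ 4 + 2 * X ^ 5 + 3 * X ^ 6 + X ^ 7 + X ^ 8 ∧
      ¬ IsUnimodal P := by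
  refine ⟨⟨J, J_spec, fun J' h => J_unique J' h⟩, fun J' h => ?_⟩
  rw [J_unique J' h]
  exact ⟨P22, P22_map, rfl, P22_not⟩

end

end Pool.Agent.Results.MP_4223bd_al.NotUnimodalB2
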